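import Pool.Agent.H59.LIN.Targets

/-!
# The Ising evaluation of a knot (row CLB)

`m = n + 1`; `c_S` denotes the product of the generators `c_j`, `j ∈ S`.
-/

set_option autoImplicit false

open Finset Matrix

namespace Pool.Agent.H39.LIN.CLB

open Pool.Agent.H59.LIN

/-- the matrices -/
abbrev MN (m : ℕ) : Type := Matrix (Finset (Fin m)) (Finset (Fin m)) ℝ

variable {m : ℕ}

theorem cm_mul_apply (j : Fin m) (X : MN m) (A B : Finset (Fin m)) :
    (cm m j * X) A B = (-1) ^ (A.filter fun i => i < j).card * X (symmDiff A {j}) B := by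
  rw [Matrix.mul_apply, Finset.sum_eq_single (symmDiff A {j})]
  · simp [cm]
  · intro b _ hb
    simp [cm, hb]
  · simp

theorem card_sd (X : Finset (Fin m)) (i : Fin m) :
    (symmDiff X {i}).card = X.card + 1 ∨ (symmDiff X {i}).card + 1 = X.card := by
  by_cases hi : i ∈ X
  · right
    have h : symmDiff X {i} = X.erase i := by
      ext a
      simp only [Finset.mem_symmDiff, Finset.mem_singleton, Finset.mem_erase]
      constructor
      · rintro (⟨h1, h2⟩ | ⟨h1, h2⟩)
        · exact ⟨h2, h1⟩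
        · subst h1; exact absurd hi h2
      · rintro ⟨h1, h2⟩
        exact Or.inl ⟨h2, h1⟩
    rw [h]
    exact Finset.card_erase_add_one hi
  · left
    have h : symmDiff X {i} = insert i X := by
      ext a
      simp only [Finset.mem_symmDiff, Finset.mem_singleton, Finset.mem_insert]
      constructor
      · rintro (⟨h1, h2⟩ | ⟨h1, h2⟩)
        · exact Or.inr h1
        · exact Or.inl h1
      · rintro (h1 | h1)
        · subst h1; exact Or.inr ⟨rfl, hi⟩
        · refine Or.inl ⟨h1, ?_⟩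
          rintro rfl
          exact hi h1
    rw [h]
    exact Finset.card_insert_of_notMem hi

theorem par (X : Finset (Fin m)) (i : Fin m) :
    (-1 : ℝ) ^ (symmDiff X {i}).card = -(-1) ^ X.card := by
  rcases card_sd X i with h | h
  · rw [h, pow_succ]; ring
  · rw [← h, pow_succ]; ring

theorem fil1 (A : Finset (Fin m)) (i j : Fin m) (h : ¬ i < j) :
    (symmDiff A {i}).filter (fun k => k < j) = A.filter (fun k => k < j) := by
  ext a
  simp only [Finset.mem_filter, Finset.mem_symmDiff, Finset.mem_singleton]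
  constructor
  · rintro ⟨⟨h1, h2⟩ | ⟨h1, h2⟩, h3⟩
    · exact ⟨h1, h3⟩
    · subst h1; exact absurd h3 h
  · rintro ⟨h1, h3⟩
    refine ⟨Or.inl ⟨h1, ?_⟩, h3⟩
    rintro rfl
    exact h h3

theorem fil2 (A : Finset (Fin m)) (i j : Fin m) (h : i < j) :
    (symmDiff A {i}).filter (fun k => k < j) = symmDiff (A.filter (fun k => k < j)) {i} := by
  ext a
  simp only [Finset.mem_filter, Finset.mem_symmDiff, Finset.mem_singleton]
  constructor
  · rintro ⟨⟨h1, h2⟩ | ⟨h1, h2⟩, h3⟩
    · exact Or.inl ⟨⟨h1, h3⟩, h2⟩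
    · exact Or.inr ⟨h1, fun h4 => h2 h4.1⟩
  · rintro (⟨⟨h1, h3⟩, h2⟩ | ⟨h1, h2⟩)
    · exact ⟨Or.inl ⟨h1, h2⟩, h3⟩
    · subst h1
      exact ⟨Or.inr ⟨rfl, fun h4 => h2 ⟨h4, h⟩⟩, h⟩

theorem neg_sq (k : ℕ) : (-1 : ℝ) ^ k * (-1) ^ k = 1 := by
  rw [← mul_pow]; simp

theorem cm_sq (j : Fin m) : cm m j * cm m j = 1 := by
  ext A B
  rw [cm_mul_apply, cm, symmDiff_symmDiff_cancel_right, fil1 A j j (lt_irrefl _), Matrix.one_apply]
  by_cases h : A = B
  · rw [if_pos h.symm, if_pos h, neg_sq]
  · rw [if_neg (Ne.symm h), if_neg h, mul_zero]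

theorem cm_anti_lt {i j : Fin m} (h : i < j) : cm m i * cm m j = -(cm m j * cm m i) := by
  ext A B
  rw [Matrix.neg_apply, cm_mul_apply, cm_mul_apply, cm, cm, symmDiff_right_comm A {j} {i},
    fil2 A i j h, par, fil1 A j i (not_lt.2 h.le)]
  by_cases h : B = symmDiff (symmDiff A {i}) {j}
  · rw [if_pos h, if_pos h]; ring
  · rw [if_neg h, if_neg h]; ring

theorem cm_anti {i j : Fin m} (h : i ≠ j) : cm m i * cm m j = -(cm m j * cm m i) := by
  rcases lt_or_gt_of_ne h with h | h
  · exact cm_anti_lt h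
  · rw [cm_anti_lt h, neg_neg]

theorem cm_tr (j : Fin m) : (cm m j)ᵀ = cm m j := by
  ext A B
  rw [Matrix.transpose_apply, cm, cm]
  by_cases h : B = symmDiff A {j}
  · rw [if_pos h, h, symmDiff_symmDiff_cancel_right, if_pos rfl, fil1 A j j (lt_irrefl _)]
  · rw [if_neg h, if_neg]
    intro h2
    exact h (by rw [h2, symmDiff_symmDiff_cancel_right])

/-- the product over a list -/
noncomputable def P (l : List (Fin m)) : MN m := (l.map (cm m)).prod

theorem P_nil : P ([] : List (Fin m)) = 1 := rfl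

theorem P_cons (j : Fin m) (l : List (Fin m)) : P (j :: l) = cm m j * P l := by
  rw [P, List.map_cons, List.prod_cons, P]

/-- equality up to the sign -/
def Sg (X Y : MN m) : Prop := X = Y ∨ X = -Y

theorem Sg.rfl' {X : MN m} : Sg X X := Or.inl rfl

theorem Sg.symm {X Y : MN m} (h : Sg X Y) : Sg Y X := by
  rcases h with h | h
  · exact Or.inl h.symm
  · exact Or.inr (by rw [h, neg_neg])

theorem Sg.trans {X Y Z : MN m} (h : Sg X Y) (h' : Sg Y Z) : Sg X Z := by
  rcases h with h | h <;> rcases h' with h' | h'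
  · exact Or.inl (h.trans h')
  · exact Or.inr (h.trans h')
  · exact Or.inr (by rw [h, h'])
  · exact Or.inl (by rw [h, h', neg_neg])

theorem Sg.mul {X Y X' Y' : MN m} (h : Sg X Y) (h' : Sg X' Y') : Sg (X * X') (Y * Y') := by
  rcases h with h | h <;> rcases h' with h' | h'
  · exact Or.inl (by rw [h, h'])
  · exact Or.inr (by rw [h, h', mul_neg])
  · exact Or.inr (by rw [h, h', neg_mul])
  · exact Or.inl (by rw [h, h', neg_mul_neg])

theorem P_perm {l l' : List (Fin m)} (h : l.Perm l') : l.Nodup → Sg (P l) (P l') := by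
  induction h with
  | nil => intro _; exact Sg.rfl'
  | cons a h ih =>
    intro hn
    rw [P_cons, P_cons]
    exact Sg.rfl'.mul (ih (List.nodup_cons.1 hn).2)
  | swap a b l =>
    intro hn
    rw [P_cons, P_cons, P_cons, P_cons, ← mul_assoc, ← mul_assoc]
    refine Sg.mul (Or.inr (cm_anti ?_)) Sg.rfl'
    rintro rfl
    simp at hn
  | trans h1 h2 ih1 ih2 =>
    intro hn
    exact (ih1 hn).trans (ih2 (h1.nodup_iff.1 hn))

/-- `c_S` -/
noncomputable def C (S : Finset (Fin m)) : MN m := P S.toList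

theorem P_C {l : List (Fin m)} (hn : l.Nodup) (S : Finset (Fin m)) (h : ∀ a, a ∈ l ↔ a ∈ S) :
    Sg (P l) (C S) := by
  refine P_perm ?_ hn
  rw [List.perm_ext_iff_of_nodup hn S.nodup_toList]
  intro a
  rw [Finset.mem_toList, h]

theorem C_empty : C (∅ : Finset (Fin m)) = 1 := by
  rw [C, Finset.toList_empty, P_nil]

theorem cm_C (j : Fin m) (S : Finset (Fin m)) : Sg (cm m j * C S) (C (symmDiff S {j})) := by
  by_cases hj : j ∈ S
  · have h1 : Sg (P (j :: (S.erase j).toList)) (C S) := by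
      refine P_C ?_ S ?_
      · rw [List.nodup_cons]
        exact ⟨by simp, Finset.nodup_toList _⟩
      · intro a
        simp only [List.mem_cons, Finset.mem_toList, Finset.mem_erase]
        constructor
        · rintro (h | h)
          · exact h ▸ hj
          · exact h.2
        · intro h
          by_cases ha : a = j
          · exact Or.inl ha
          · exact Or.inr ⟨ha, h⟩
    have h2 := (Sg.rfl' (X := cm m j)).mul h1.symm
    rw [P_cons, ← mul_assoc, cm_sq, one_mul] at h2
    refine h2.trans ?_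
    refine P_C (Finset.nodup_toList _) _ ?_
    intro a
    simp only [Finset.mem_toList, Finset.mem_symmDiff, Finset.mem_singleton, Finset.mem_erase]
    constructor
    · rintro ⟨h3, h4⟩
      exact Or.inl ⟨h4, h3⟩
    · rintro (⟨h3, h4⟩ | ⟨h3, h4⟩)
      · exact ⟨h4, h3⟩
      · exact absurd (h3 ▸ hj) h4
  · rw [C, ← P_cons]
    refine P_C ?_ _ ?_
    · rw [List.nodup_cons]
      exact ⟨by simpa using hj, Finset.nodup_toList _⟩
    · intro a
      simp only [List.mem_cons, Finset.mem_toList, Finset.mem_symmDiff, Finset.mem_singleton]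
      constructor
      · rintro (h | h)
        · subst h; exact Or.inr ⟨rfl, hj⟩
        · refine Or.inl ⟨h, ?_⟩
          rintro rfl
          exact hj h
      · rintro (⟨h1, h2⟩ | ⟨h1, h2⟩)
        · exact Or.inr h1
        · exact Or.inl h1

/-- commutation of a generator and a product -/
theorem cm_P (j : Fin m) (l : List (Fin m)) (hn : l.Nodup) :
    cm m j * P l = ((if j ∈ l then -1 else 1) * (-1 : ℝ) ^ l.length) • (P l * cm m j) := by
  induction l with
  | nil => simp [P_nil]
  | cons a l ih =>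
    rw [List.nodup_cons] at hn
    have ih := ih hn.2
    by_cases ha : j = a
    · subst ha
      rw [if_neg hn.1] at ih
      rw [P_cons, if_pos (List.mem_cons_self)]
      conv_lhs => rw [ih]
      rw [mul_smul_comm, mul_assoc, List.length_cons, pow_succ]
      congr 1
      ring
    · rw [P_cons, ← mul_assoc, cm_anti ha, neg_mul, mul_assoc, ih, mul_smul_comm, mul_assoc,
        ← neg_smul, List.length_cons, pow_succ]
      congr 1
      have : (j ∈ a :: l) ↔ j ∈ l := by simp [ha]
      by_cases hj : j ∈ l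
      · rw [if_pos hj, if_pos (this.2 hj)]; ring
      · rw [if_neg hj, if_neg (fun h => hj (this.1 h))]; ring

theorem P_orth (l : List (Fin m)) : P l * (P l)ᵀ = 1 := by
  induction l with
  | nil => simp [P_nil]
  | cons a l ih =>
    rw [P_cons, Matrix.transpose_mul, cm_tr, mul_assoc, ← mul_assoc (P l), ih, one_mul, cm_sq]

theorem C_orth (S : Finset (Fin m)) : C S * (C S)ᵀ = 1 := P_orth _

theorem C_cm (j : Fin m) (S : Finset (Fin m)) : Sg (C S * cm m j) (C (symmDiff S {j})) := by
  refine Sg.trans ?_ (cm_C j S)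
  have h := cm_P j S.toList S.nodup_toList
  have h2 : ((if j ∈ S.toList then -1 else 1) * (-1 : ℝ) ^ S.toList.length = 1) ∨
      ((if j ∈ S.toList then -1 else 1) * (-1 : ℝ) ^ S.toList.length = -1) := by
    rcases neg_one_pow_eq_or ℝ S.toList.length with h3 | h3 <;> split_ifs <;> rw [h3] <;> norm_num
  refine Sg.symm ?_
  rcases h2 with h2 | h2
  · left; rw [C, h, h2, one_smul]
  · right; rw [C, h, h2, neg_one_smul]

/-- the support -/
theorem P_supp (l : List (Fin m)) : ∃ T : Finset (Fin m), (∀ A B, B ≠ symmDiff A T → P l A B = 0) ∧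
    (l.Nodup → ∀ a, a ∈ T ↔ a ∈ l) := by
  induction l with
  | nil =>
    refine ⟨∅, fun A B h => ?_, fun _ a => by simp⟩
    rw [P_nil, Matrix.one_apply, if_neg]
    intro h2
    apply h
    rw [h2]
    exact (symmDiff_bot B).symm
  | cons a l ih =>
    obtain ⟨T, h1, h2⟩ := ih
    refine ⟨symmDiff {a} T, fun A B h => ?_, fun hn b => ?_⟩
    · rw [P_cons, cm_mul_apply, h1, mul_zero]
      intro h3
      apply h
      rw [h3, symmDiff_assoc]
    · rw [List.nodup_cons] at hn
      rw [Finset.mem_symmDiff, Finset.mem_singleton, List.mem_cons, h2 hn.2]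
      constructor
      · rintro (⟨h1, h2⟩ | ⟨h1, h2⟩)
        · exact Or.inl h1
        · exact Or.inr h1
      · rintro (h | h)
        · subst h; exact Or.inl ⟨rfl, hn.1⟩
        · refine Or.inr ⟨h, ?_⟩
          rintro rfl
          exact hn.1 h

theorem C_supp (S A B : Finset (Fin m)) (h : B ≠ symmDiff A S) : C S A B = 0 := by
  obtain ⟨T, h1, h2⟩ := P_supp S.toList
  have : T = S := by
    ext a
    rw [h2 S.nodup_toList, Finset.mem_toList]
  subst this
  exact h1 A B h

theorem tr_C {S T : Finset (Fin m)} (h : S ≠ T) : (C S * (C T)ᵀ).trace = 0 := by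
  rw [Matrix.trace]
  refine Finset.sum_eq_zero fun A _ => ?_
  rw [Matrix.diag_apply, Matrix.mul_apply]
  refine Finset.sum_eq_zero fun B _ => ?_
  rw [Matrix.transpose_apply]
  by_cases h1 : B = symmDiff A S
  · rw [C_supp T A B, mul_zero]
    intro h2
    exact h (symmDiff_right_injective A (h1.symm.trans h2))
  · rw [C_supp S A B h1, zero_mul]

theorem tr_one : (1 : MN m).trace = 2 ^ m := by
  rw [Matrix.trace_one, Fintype.card_finset, Fintype.card_fin]
  push_cast
  rfl

/-- the average -/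
noncomputable def F (X : MN m) : MN m := ∑ S, C S * X * (C S)ᵀ

theorem sg_sand {X Y Z : MN m} (h : Sg X Y) : X * Z * Xᵀ = Y * Z * Yᵀ := by
  rcases h with h | h
  · rw [h]
  · rw [h, Matrix.transpose_neg, neg_mul, neg_mul_neg]

theorem F_inv (j : Fin m) (X : MN m) : F (cm m j * X * cm m j) = F X := by
  rw [F, F]
  refine Fintype.sum_equiv ((symmDiff_right_involutive ({j} : Finset (Fin m))).toPerm) _ _ ?_
  intro S
  have h1 := sg_sand (Z := X) (C_cm j S)
  have h2 : ((symmDiff_right_involutive ({j} : Finset (Fin m))).toPerm) S = symmDiff {j} S := rfl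
  rw [h2, symmDiff_comm, ← h1, Matrix.transpose_mul, cm_tr]
  simp only [mul_assoc]

theorem F_even (T : Finset (Fin m)) (hT : Even T.card) : F (C T) = (C T).trace • 1 := by
  by_cases h0 : T = ∅
  · subst h0
    rw [C_empty, tr_one, F]
    simp only [mul_one, C_orth]
    rw [Finset.sum_const, Finset.card_univ, Fintype.card_finset, Fintype.card_fin,
      ← Nat.cast_smul_eq_nsmul ℝ]
    push_cast
    rfl
  · obtain ⟨j, hj⟩ := Finset.nonempty_iff_ne_empty.2 h0
    have h1 : (C T).trace = 0 := by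
      have := tr_C h0
      rwa [C_empty, Matrix.transpose_one, mul_one] at this
    have h2 : cm m j * C T * cm m j = -(C T) := by
      rw [C, cm_P j _ T.nodup_toList, if_pos (by simpa using hj), Finset.length_toList,
        hT.neg_one_pow, smul_mul_assoc, mul_assoc, cm_sq, mul_one, mul_one, neg_one_smul]
    have h3 : F (-(C T)) = -F (C T) := by
      rw [F, F, ← Finset.sum_neg_distrib]
      refine Finset.sum_congr rfl fun S _ => ?_
      rw [mul_neg, neg_mul]
    have h4 := F_inv j (C T)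
    rw [h2, h3] at h4
    rw [h1, zero_smul]
    ext A B
    have h5 := congrFun (congrFun h4 A) B
    rw [Matrix.neg_apply] at h5
    rw [Matrix.zero_apply]
    linarith

/-- the even part -/
def Ev (m : ℕ) : Submodule ℝ (MN m) := Submodule.span ℝ {X | ∃ T : Finset (Fin m), Even T.card ∧ X = C T}

theorem F_Ev {X : MN m} (h : X ∈ Ev m) : F X = X.trace • 1 := by
  induction h using Submodule.span_induction with
  | mem X h =>
    obtain ⟨T, hT, rfl⟩ := h
    exact F_even T hT
  | zero => simp [F]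
  | add X Y _ _ h1 h2 =>
    rw [Matrix.trace_add, add_smul, ← h1, ← h2, F, F, F, ← Finset.sum_add_distrib]
    refine Finset.sum_congr rfl fun S _ => ?_
    rw [mul_add, add_mul]
  | smul a X _ h =>
    rw [Matrix.trace_smul, smul_assoc, ← h, F, F, Finset.smul_sum]
    refine Finset.sum_congr rfl fun S _ => ?_
    rw [mul_smul_comm, smul_mul_assoc]

theorem Ev_mul (i j : Fin m) {X : MN m} (h : X ∈ Ev m) : cm m i * cm m j * X ∈ Ev m := by
  induction h using Submodule.span_induction with
  | mem X h =>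
    obtain ⟨T, hT, rfl⟩ := h
    have h1 : Sg (cm m i * cm m j * C T) (C (symmDiff (symmDiff T {j}) {i})) := by
      rw [mul_assoc]
      exact ((Sg.rfl' (X := cm m i)).mul (cm_C j T)).trans (cm_C i _)
    have h2 : C (symmDiff (symmDiff T {j}) {i}) ∈ Ev m := by
      refine Submodule.subset_span ⟨_, ?_, rfl⟩
      rcases card_sd T j with h3 | h3 <;> rcases card_sd (symmDiff T {j}) i with h4 | h4 <;>
        rw [Nat.even_iff] at hT ⊢ <;> omega
    rcases h1 with h1 | h1
    · rw [h1]; exact h2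
    · rw [h1]; exact Submodule.neg_mem _ h2
  | zero => rw [mul_zero]; exact Submodule.zero_mem _
  | add X Y _ _ h1 h2 => rw [mul_add]; exact Submodule.add_mem _ h1 h2
  | smul a X _ h => rw [mul_smul_comm]; exact Submodule.smul_mem _ _ h

/-! ### the letters -/

variable {n : ℕ}

/-- the operator of a letter -/
noncomputable def g (x : Fin n × Bool) : MN (n + 1) :=
  (√2)⁻¹ • (1 + (if x.2 then (1 : ℝ) else -1) • (cm (n + 1) x.1.castSucc * cm (n + 1) x.1.succ))

theorem gm_nil : gm ([] : Wd n) = 1 := rfl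

theorem gm_cons (x : Fin n × Bool) (w : Wd n) : gm (x :: w) = g x * gm w := by
  rw [gm, List.map_cons, List.prod_cons, gm, g]

theorem gm_Ev (w : Wd n) : gm w ∈ Ev (n + 1) := by
  induction w with
  | nil =>
    rw [gm_nil, ← C_empty]
    exact Submodule.subset_span ⟨∅, by simp, rfl⟩
  | cons x w ih =>
    rw [gm_cons, g, smul_mul_assoc, add_mul, one_mul, smul_mul_assoc]
    exact Submodule.smul_mem _ _ (Submodule.add_mem _ ih (Submodule.smul_mem _ _ (Ev_mul _ _ ih)))

theorem s2 : (√2 : ℝ)⁻¹ * (√2)⁻¹ = 1 / 2 := by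
  rw [← mul_inv, Real.mul_self_sqrt (by norm_num)]
  norm_num

theorem ne_i (i : Fin n) : i.castSucc ≠ i.succ := (Fin.castSucc_lt_succ).ne

/-- the general form of a letter: `a = c_i`, `b = c_{i+1}`, `e = ±1` -/
theorem letter (a b : MN m) (e : ℝ) (he : e * e = 1) (ha : a * a = 1) (hb : b * b = 1)
    (hab : a * b = -(b * a)) (hat : aᵀ = a) (hbt : bᵀ = b) :
    ((√2 : ℝ)⁻¹ • (1 + e • (a * b))) * ((√2 : ℝ)⁻¹ • (1 + e • (a * b)))ᵀ = 1 ∧
    ((√2 : ℝ)⁻¹ • (1 + e • (a * b))) * a * ((√2 : ℝ)⁻¹ • (1 + e • (a * b)))ᵀ = -(e • b) ∧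
    ((√2 : ℝ)⁻¹ • (1 + e • (a * b))) * b * ((√2 : ℝ)⁻¹ • (1 + e • (a * b)))ᵀ = e • a ∧
    ∀ c : MN m, a * c = -(c * a) → b * c = -(c * b) →
      ((√2 : ℝ)⁻¹ • (1 + e • (a * b))) * c * ((√2 : ℝ)⁻¹ • (1 + e • (a * b)))ᵀ = c := by
  have hu : (a * b)ᵀ = -(a * b) := by rw [Matrix.transpose_mul, hat, hbt, hab, neg_neg]
  have huu : a * b * (a * b) = -1 := by
    calc a * b * (a * b) = a * (b * a) * b := by simp only [mul_assoc]
      _ = a * (-(a * b)) * b := by rw [hab, neg_neg]
      _ = -(a * a * (b * b)) := by rw [mul_neg, neg_mul]; simp only [mul_assoc]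
      _ = -1 := by rw [ha, hb, mul_one]
  have hT : ((√2 : ℝ)⁻¹ • (1 + e • (a * b)))ᵀ = (√2 : ℝ)⁻¹ • (1 - e • (a * b)) := by
    rw [Matrix.transpose_smul, Matrix.transpose_add, Matrix.transpose_one, Matrix.transpose_smul, hu,
      smul_neg, sub_eq_add_neg]
  have key : ∀ c : MN m, ((√2 : ℝ)⁻¹ • (1 + e • (a * b))) * c * ((√2 : ℝ)⁻¹ • (1 + e • (a * b)))ᵀ =
      (1 / 2 : ℝ) • ((c + e • (a * b * c)) - e • (c * (a * b)) - a * b * c * (a * b)) := by
    intro c
    rw [hT, smul_mul_assoc, smul_mul_assoc, mul_smul_comm, smul_smul, s2]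
    congr 1
    rw [add_mul, one_mul, mul_sub, mul_one, add_mul, smul_mul_assoc, mul_smul_comm, smul_mul_assoc,
      mul_smul_comm, smul_smul, he, one_smul]
    abel
  have h1 : ∀ c : MN m, (1 / 2 : ℝ) • (c + c) = c := by
    intro c
    rw [← two_smul ℝ c, smul_smul]
    norm_num
  refine ⟨?_, ?_, ?_, ?_⟩
  · have := key 1
    rw [mul_one] at this
    rw [this, mul_one, one_mul, huu]
    have h2 : (1 : MN m) + e • (a * b) - e • (a * b) - -1 = 1 + 1 := by abel
    rw [h2, h1]
  · rw [key]
    have e1 : a * b * a = -b := by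
      rw [mul_assoc, ← neg_neg (b * a), ← hab, mul_neg, ← mul_assoc, ha, one_mul]
    have e2 : a * (a * b) = b := by rw [← mul_assoc, ha, one_mul]
    have e3 : a * b * a * (a * b) = a := by
      rw [mul_assoc (a * b), e2, mul_assoc, hb, mul_one]
    rw [e3, e1, e2]
    have h2 : a + e • -b - e • b - a = -(e • b) + -(e • b) := by rw [smul_neg]; abel
    rw [h2, h1]
  · rw [key]
    have e1 : a * b * b = a := by rw [mul_assoc, hb, mul_one]
    have e2 : b * (a * b) = -a := by
      rw [hab, mul_neg, ← mul_assoc, hb, one_mul]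
    have e3 : a * b * b * (a * b) = b := by
      rw [e1, ← mul_assoc, ha, one_mul]
    rw [e3, e1, e2]
    have h2 : b + e • a - e • -a - b = e • a + e • a := by rw [smul_neg]; abel
    rw [h2, h1]
  · intro c hac hbc
    rw [key]
    have e1 : a * b * c = c * (a * b) := by
      rw [mul_assoc, hbc, mul_neg, ← mul_assoc, hac, neg_mul, neg_neg, mul_assoc]
    have e3 : a * b * c * (a * b) = -c := by
      rw [e1, mul_assoc, huu, mul_neg, mul_one]
    rw [e3, e1]
    have h2 : c + e • (c * (a * b)) - e • (c * (a * b)) - -c = c + c := by abel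
    rw [h2, h1]

theorem eps (b : Bool) : (if b then (1 : ℝ) else -1) * (if b then (1 : ℝ) else -1) = 1 := by
  cases b <;> norm_num

theorem g_orth (x : Fin n × Bool) : g x * (g x)ᵀ = 1 :=
  (letter (cm (n + 1) x.1.castSucc) (cm (n + 1) x.1.succ) _
    (eps x.2) (cm_sq _) (cm_sq _) (cm_anti (ne_i _)) (cm_tr _) (cm_tr _)).1

theorem sg_smul (b : Bool) (X : MN m) : Sg ((if b then (1 : ℝ) else -1) • X) X := by
  cases b
  · right; simp
  · left; simp

theorem g_conj (x : Fin n × Bool) (p : Fin (n + 1)) :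
    Sg (g x * cm (n + 1) (tr x.1 p) * (g x)ᵀ) (cm (n + 1) p) := by
  obtain ⟨-, h1, h2, h3⟩ := letter (cm (n + 1) x.1.castSucc) (cm (n + 1) x.1.succ) _
    (eps x.2) (cm_sq _) (cm_sq _) (cm_anti (ne_i _)) (cm_tr _) (cm_tr _)
  by_cases hp : p = x.1.succ
  · have : tr x.1 p = x.1.castSucc := by rw [hp, tr, Equiv.swap_apply_right]
    rw [this, hp]
    have h4 := sg_smul x.2 (cm (n + 1) x.1.succ)
    refine Sg.trans ?_ h4
    exact Or.inr h1
  · by_cases hp2 : p = x.1.castSucc
    · have : tr x.1 p = x.1.succ := by rw [hp2, tr, Equiv.swap_apply_left]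
      rw [this, hp2]
      have h4 := sg_smul x.2 (cm (n + 1) x.1.castSucc)
      refine Sg.trans ?_ h4
      exact Or.inl h2
    · have : tr x.1 p = p := by rw [tr, Equiv.swap_apply_of_ne_of_ne hp2 hp]
      rw [this]
      exact Or.inl (h3 _ (cm_anti (Ne.symm hp2)) (cm_anti (Ne.symm hp)))

theorem gm_orth (w : Wd n) : gm w * (gm w)ᵀ = 1 := by
  induction w with
  | nil => simp [gm_nil]
  | cons x w ih =>
    rw [gm_cons, Matrix.transpose_mul, mul_assoc, ← mul_assoc (gm w), ih, one_mul, g_orth]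

theorem gm_orth' (w : Wd n) : (gm w)ᵀ * gm w = 1 := mul_eq_one_comm.1 (gm_orth w)

theorem gm_conj (w : Wd n) : ∀ p : Fin (n + 1),
    Sg (gm w * cm (n + 1) (run w p) * (gm w)ᵀ) (cm (n + 1) p) := by
  induction w with
  | nil =>
    intro p
    rw [gm_nil, Matrix.transpose_one, one_mul, mul_one]
    exact Sg.rfl'
  | cons x w ih =>
    intro p
    have h1 := ih (tr x.1 p)
    have h2 := (((Sg.rfl' (X := g x)).mul h1).mul (Sg.rfl' (X := (g x)ᵀ))).trans (g_conj x p)
    have h3 : gm (x :: w) * cm (n + 1) (run (x :: w) p) * (gm (x :: w))ᵀ =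
        g x * (gm w * cm (n + 1) (run w (tr x.1 p)) * (gm w)ᵀ) * (g x)ᵀ := by
      rw [gm_cons, Matrix.transpose_mul, run]
      simp only [mul_assoc]
    rw [h3]
    exact h2

theorem run_perm (w : Wd n) : ∃ e : Equiv.Perm (Fin (n + 1)), ∀ p, run w p = e p := by
  induction w with
  | nil => exact ⟨1, fun p => rfl⟩
  | cons x w ih =>
    obtain ⟨e, he⟩ := ih
    exact ⟨(tr x.1).trans e, fun p => he _⟩

theorem gm_P (w : Wd n) (l : List (Fin (n + 1))) :
    Sg (gm w * P (l.map (run w)) * (gm w)ᵀ) (P l) := by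
  induction l with
  | nil =>
    rw [List.map_nil, P_nil, mul_one, gm_orth]
    exact Sg.rfl'
  | cons a l ih =>
    rw [List.map_cons, P_cons, P_cons]
    have h : gm w * (cm (n + 1) (run w a) * P (l.map (run w))) * (gm w)ᵀ =
        (gm w * cm (n + 1) (run w a) * (gm w)ᵀ) * (gm w * P (l.map (run w)) * (gm w)ᵀ) := by
      calc gm w * (cm (n + 1) (run w a) * P (l.map (run w))) * (gm w)ᵀ
          = gm w * cm (n + 1) (run w a) * 1 * P (l.map (run w)) * (gm w)ᵀ := by
            rw [mul_one]; simp only [mul_assoc]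
        _ = _ := by rw [← gm_orth' w]; simp only [mul_assoc]
    rw [h]
    exact (gm_conj w a).mul ih

theorem gm_C (w : Wd n) (e : Equiv.Perm (Fin (n + 1))) (he : ∀ p, run w p = e p)
    (S : Finset (Fin (n + 1))) :
    Sg (gm w * C (S.map e.toEmbedding) * (gm w)ᵀ) (C S) := by
  refine Sg.trans ?_ (gm_P w S.toList)
  refine Sg.mul (Sg.mul Sg.rfl' (Sg.symm ?_)) Sg.rfl'
  refine P_C ?_ _ ?_
  · refine S.nodup_toList.map ?_
    intro a b hab
    rw [he, he] at hab
    exact e.injective hab
  · intro a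
    rw [List.mem_map, Finset.mem_map]
    constructor
    · rintro ⟨b, h1, h2⟩
      exact ⟨b, by simpa using h1, by rw [← h2, he]; rfl⟩
    · rintro ⟨b, h1, h2⟩
      exact ⟨b, by simpa using h1, by rw [← h2, he]; rfl⟩

theorem univ_comm (w : Wd n) : C (univ : Finset (Fin (n + 1))) * gm w = gm w * C univ := by
  have hj : ∀ j : Fin (n + 1), cm (n + 1) j * C univ =
      (-1 * (-1 : ℝ) ^ (n + 1)) • (C univ * cm (n + 1) j) := by
    intro j
    have := cm_P j (univ : Finset (Fin (n + 1))).toList (Finset.nodup_toList _)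
    rw [if_pos (by simp), Finset.length_toList, Finset.card_univ, Fintype.card_fin] at this
    exact this
  have hij : ∀ i j : Fin (n + 1), C univ * (cm (n + 1) i * cm (n + 1) j) =
      cm (n + 1) i * cm (n + 1) j * C univ := by
    intro i j
    rw [mul_assoc (cm (n + 1) i), hj j, mul_smul_comm, ← mul_assoc (cm (n + 1) i), hj i,
      smul_mul_assoc, smul_smul]
    have h1 : (-1 * (-1 : ℝ) ^ (n + 1)) * (-1 * (-1 : ℝ) ^ (n + 1)) = 1 := by
      have := neg_sq (n + 1)
      linear_combination this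
    rw [h1, one_smul, mul_assoc]
  induction w with
  | nil => rw [gm_nil, mul_one, one_mul]
  | cons x w ih =>
    have hg : C univ * g x = g x * C univ := by
      rw [g, mul_smul_comm, smul_mul_assoc, mul_add, add_mul, mul_one, one_mul, mul_smul_comm,
        smul_mul_assoc, hij]
    rw [gm_cons, ← mul_assoc, hg, mul_assoc, ih, mul_assoc]

/-- the invariant sets -/
theorem inv_sets (w : Wd n) (hk : Knot w) (e : Equiv.Perm (Fin (n + 1)))
    (he : ∀ p, run w p = e p) (S : Finset (Fin (n + 1))) (hS : S.map e.toEmbedding = S) :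
    S = ∅ ∨ S = univ := by
  have hm : ∀ a, a ∈ S → run w a ∈ S := by
    intro a ha
    rw [← hS, Finset.mem_map]
    exact ⟨a, ha, by rw [he]; rfl⟩
  have hm' : ∀ a, run w a ∈ S → a ∈ S := by
    intro a ha
    rw [← hS, Finset.mem_map] at ha
    obtain ⟨b, hb, h⟩ := ha
    rw [he] at h
    have : b = a := e.injective h
    exact this ▸ hb
  by_cases h0 : (0 : Fin (n + 1)) ∈ S
  · right
    rw [Finset.eq_univ_iff_forall]
    intro p
    obtain ⟨k, rfl⟩ := hk p
    induction k with
    | zero => exact h0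
    | succ k ih => rw [Function.iterate_succ_apply']; exact hm _ ih
  · left
    rw [Finset.eq_empty_iff_forall_notMem]
    intro p
    obtain ⟨k, rfl⟩ := hk p
    induction k with
    | zero => exact h0
    | succ k ih =>
      rw [Function.iterate_succ_apply']
      exact fun h => ih (hm' _ h)

theorem tr_sq (w : Wd n) (hk : Knot w) : (gm w).trace ^ 2 = 2 * 2 ^ (n + 1) := by
  obtain ⟨e, he⟩ := run_perm w
  have h1 : (F (gm w) * (gm w)ᵀ).trace = (gm w).trace ^ 2 := by
    rw [F_Ev (gm_Ev w), smul_mul_assoc, one_mul, Matrix.trace_smul, Matrix.trace_transpose,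
      smul_eq_mul, sq]
  rw [← h1, F, Finset.sum_mul, Matrix.trace_sum]
  have h2 : ∀ S ∈ (univ : Finset (Finset (Fin (n + 1)))), S ∉ ({∅, univ} : Finset _) →
      (C S * gm w * (C S)ᵀ * (gm w)ᵀ).trace = 0 := by
    intro S _ hS
    obtain ⟨T, rfl⟩ : ∃ T : Finset (Fin (n + 1)), T.map e.toEmbedding = S :=
      ⟨S.map e.symm.toEmbedding, by
        rw [Finset.map_map]
        ext a
        simp⟩
    have h3 : C (T.map e.toEmbedding) * gm w * (C (T.map e.toEmbedding))ᵀ * (gm w)ᵀ =
        C (T.map e.toEmbedding) * (gm w * C (T.map e.toEmbedding) * (gm w)ᵀ)ᵀ := by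
      rw [Matrix.transpose_mul, Matrix.transpose_mul, Matrix.transpose_transpose]
      simp only [mul_assoc]
    have h4 : T.map e.toEmbedding ≠ T := by
      intro h5
      rw [h5] at hS
      rcases inv_sets w hk e he T h5 with h6 | h6
      · exact hS (by simp [h6])
      · exact hS (by simp [h6])
    rw [h3]
    rcases gm_C w e he T with h5 | h5
    · rw [h5, tr_C h4]
    · rw [h5, Matrix.transpose_neg, mul_neg, Matrix.trace_neg, tr_C h4, neg_zero]
  rw [← Finset.sum_subset (Finset.subset_univ ({∅, univ} : Finset (Finset (Fin (n + 1))))) h2]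
  have hne : (∅ : Finset (Fin (n + 1))) ≠ univ := (Finset.univ_nonempty.ne_empty).symm
  rw [Finset.sum_pair hne]
  have h5 : (C ∅ * gm w * (C ∅)ᵀ * (gm w)ᵀ).trace = 2 ^ (n + 1) := by
    rw [C_empty, Matrix.transpose_one, one_mul, mul_one, gm_orth, tr_one]
  have h6 : (C univ * gm w * (C univ)ᵀ * (gm w)ᵀ).trace = 2 ^ (n + 1) := by
    rw [univ_comm, mul_assoc (gm w), C_orth, mul_one, gm_orth, tr_one]
  rw [h5, h6]
  ring

theorem pf_CLB : Pool.Agent.H59.LIN.T_CLB := by
  intro n w hk
  have h1 := tr_sq w hk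
  have h2 : (√2 : ℝ) ^ 2 = 2 := Real.sq_sqrt (by norm_num)
  have h3 : (2 : ℝ) ^ n ≠ 0 := by positivity
  rw [TI, mul_pow, mul_pow, h1, ← pow_mul, mul_comm n 2, pow_mul, h2]
  field_simp
  ring

end Pool.Agent.H39.LIN.CLB
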